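import Mathlib
import Pool.Agent.H554R2.Rnd.Zero
import Pool.Agent.H554R2.Qua.Defs

/-!
# Q1: the characters on a large class
-/

set_option autoImplicit false

open Finset

namespace Pool.Agent.H554R2.Qua

open Pool.Agent.H554R2.Sem Pool.Agent.H554R2.Coin Pool.Agent.H554R2.Lin Pool.Agent.H554R2.Rnd

theorem Q1_abs_sgn (b : Bool) : |sgn b| = 1 := by
  cases b <;> decide

theorem Q1_abs_chi {n G D : ℕ} (π : Fin D → Fin n → Fin G) (h : Fin D → Fin n → Fin n → Bool)
    (s : Finset (Fin D)) (x : Pt n) : |chi π h s x| = 1 := by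
  unfold chi
  rw [Finset.abs_prod]
  exact Finset.prod_eq_one fun i _ => Q1_abs_sgn _

/-- Q1: the characters on a large class -/
theorem sum_chi_class {n r s G D Q L : ℕ} (hQ : 1 ≤ Q) (B : Blk n r s) (hB : AllRead B)
    (T : Fin r → Fin 3) (x : Pt n) (hx : x ∈ B.K) (hL : Lg Q B T x)
    (π : Fin D → Fin n → Fin G) (h : Fin D → Fin n → Fin n → Bool)
    (hker : ∀ A B' : Finset (Fin n), Disjoint A B' → n ≤ Q * A.card → n ≤ Q * B'.card →
      ∀ s : Finset (Fin D), ∀ j ∈ s, Bal (π j) A B' →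
        (ker (coef π h s) A B').card * 2 ^ (min A.card B'.card / 2048) ≤ 2 ^ B'.card)
    (hbal : ∀ A B' : Finset (Fin n), n ≤ Q * A.card → n ≤ Q * B'.card →
      Nat.card {j // ¬ Bal (π j) A B'} ≤ L) :
    ∑ u : Finset (Fin D), ((|∑ y ∈ cls B T x, chi π h u y| : ℤ) : ℝ) ≤
      (cls B T x).card * (2 ^ L + 2 ^ D / 2 ^ (n / (16384 * Q))) := by
  classical
  have hdis := R7_disj B hB T x hx
  obtain ⟨U, hU⟩ : ∃ U : Finset (Fin D),
      U = univ.filter (fun j => ¬ Bal (π j) (hat (B.S x) T 0) (hat (B.S x) T 1)) := ⟨_, rfl⟩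
  have hUc : U.card ≤ L := by
    refine le_trans (le_of_eq ?_) (hbal (hat (B.S x) T 0) (hat (B.S x) T 1) hL.1 hL.2.1)
    rw [hU, Nat.card_eq_fintype_card, Fintype.card_subtype]
  have hE : (0 : ℝ) < 2 ^ (n / (16384 * Q)) := by positivity
  have hterm : ∀ u : Finset (Fin D), ((|∑ y ∈ cls B T x, chi π h u y| : ℤ) : ℝ) ≤
      (if u ∈ U.powerset then ((cls B T x).card : ℝ) else 0) +
        (cls B T x).card / 2 ^ (n / (16384 * Q)) := by
    intro u
    have hc0 : (0 : ℝ) ≤ (cls B T x).card / 2 ^ (n / (16384 * Q)) := by positivity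
    by_cases hu : u ⊆ U
    · rw [if_pos (Finset.mem_powerset.2 hu)]
      have h1 : |∑ y ∈ cls B T x, chi π h u y| ≤ (cls B T x).card := by
        refine (Finset.abs_sum_le_sum_abs _ _).trans (le_of_eq ?_)
        simp only [Q1_abs_chi, Finset.sum_const, nsmul_eq_mul, mul_one]
      have h2 : ((|∑ y ∈ cls B T x, chi π h u y| : ℤ) : ℝ) ≤ (((cls B T x).card : ℤ) : ℝ) := by
        exact_mod_cast h1
      rw [Int.cast_natCast] at h2
      linarith
    · rw [if_neg (fun h => hu (Finset.mem_powerset.1 h)), zero_add, le_div_iff₀ hE]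
      obtain ⟨j, hju, hjU⟩ := Finset.not_subset.1 hu
      have hbj : Bal (π j) (hat (B.S x) T 0) (hat (B.S x) T 1) := by
        by_contra hcon
        exact hjU (by rw [hU]; exact Finset.mem_filter.2 ⟨Finset.mem_univ _, hcon⟩)
      exact class_chi hQ B hB T x hx hL π h u (hker _ _ hdis hL.1 hL.2.1 u j hju hbj)
  refine (Finset.sum_le_sum fun u _ => hterm u).trans ?_
  rw [Finset.sum_add_distrib, Finset.sum_ite_mem, Finset.univ_inter, Finset.sum_const,
    Finset.sum_const, Finset.card_powerset, Finset.card_univ, Fintype.card_finset, Fintype.card_fin,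
    nsmul_eq_mul, nsmul_eq_mul]
  push_cast
  have h3 : (2 : ℝ) ^ U.card ≤ 2 ^ L := pow_le_pow_right₀ (by norm_num) hUc
  have h4 : (2 : ℝ) ^ U.card * (cls B T x).card ≤ 2 ^ L * (cls B T x).card :=
    mul_le_mul_of_nonneg_right h3 (Nat.cast_nonneg _)
  calc (2 : ℝ) ^ U.card * (cls B T x).card + 2 ^ D * ((cls B T x).card / 2 ^ (n / (16384 * Q)))
      ≤ 2 ^ L * (cls B T x).card + 2 ^ D * ((cls B T x).card / 2 ^ (n / (16384 * Q))) := by
        linarith
    _ = _ := by ring

end Pool.Agent.H554R2.Qua
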