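import Pool.Agent.H554R2.Qua.Defs
import Pool.Agent.H554R2.Rnd.Det

/-!
# Q3: deterministic programs make errors on one of two sets which are not distinguished by the
# large classes
-/

set_option autoImplicit false

open Finset

namespace Pool.Agent.H554R2.Qua

open Pool.Agent.H554R2.Sem Pool.Agent.H554R2.Coin Pool.Agent.H554R2.Lin Pool.Agent.H554R2.Rnd

/-- blocks of a program which reads all variables, for an arbitrary output -/
theorem Q3_blocks {n : ℕ} (P : BP (Fin n) Bool) (r s : ℕ)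
    (hP : ∀ x, ∃ (l : List (Fin n)) (b : Bool), l.length ≤ r * s ∧ P.Comp x l b ∧ ∀ v, v ∈ l)
    (κ : Fin (r + 1) → P.State) (h0 : κ 0 = P.start) :
    ∃ B : Blk n r s, AllRead B ∧
      ∀ x, x ∈ B.K ↔ ∀ j : Fin (r + 1), V1_it P x P.start (j * s) = κ j := by
  classical
  refine ⟨{
    K := univ.filter fun x : Pt n => ∀ j : Fin (r + 1), V1_it P x P.start (j * s) = κ j
    Rd := fun j x => V1_rd P x (κ j.castSucc) s
    size := fun x _ j => V1_card_rd P x _ s
    det := ?_
    splice := ?_ }, ?_, ?_⟩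
  · intro x _ y _ j hxy
    have h1 := V1_agree P x (fun i => if i ∈ V1_rd P x (κ j.castSucc) s then x i else y i) s
      (κ j.castSucc) (by
        intro i hi
        simp only [if_pos hi])
    have h2 := V1_agree P y (fun i => if i ∈ V1_rd P x (κ j.castSucc) s then x i else y i) s
      (κ j.castSucc) (by
        intro i hi
        by_cases hi2 : i ∈ V1_rd P x (κ j.castSucc) s
        · simp only [if_pos hi2]
          exact hxy i hi2 hi
        · simp only [if_neg hi2])
    rw [← h1.1, ← h2.1]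
  · intro X hX z hz
    have hag : ∀ j : Fin r, V1_rd P z (κ j.castSucc) s = V1_rd P (X j) (κ j.castSucc) s ∧
        V1_it P z (κ j.castSucc) s = V1_it P (X j) (κ j.castSucc) s :=
      fun j => V1_agree P (X j) z s _ (hz j)
    have hit : ∀ j : ℕ, ∀ hj : j < r + 1, V1_it P z P.start (j * s) = κ ⟨j, hj⟩ := by
      intro j
      induction j with
      | zero =>
        intro hj
        rw [zero_mul, V1_it_zero]
        exact h0.symm
      | succ j ih =>
        intro hj
        have hj' : j < r := by omega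
        have h1 := ih (by omega)
        have h2 := (Finset.mem_filter.1 (hX ⟨j, hj'⟩)).2
        have h3 := h2 (Fin.castSucc ⟨j, hj'⟩)
        have h4 := h2 (Fin.succ ⟨j, hj'⟩)
        have h5 := (hag ⟨j, hj'⟩).2
        rw [add_mul, one_mul, V1_it_add, h1]
        change V1_it P z (κ (Fin.castSucc ⟨j, hj'⟩)) s = κ (Fin.succ ⟨j, hj'⟩)
        rw [h5]
        conv_lhs => rw [← h3]
        rw [← V1_it_add, ← h4]
        congr 1
        simp [add_mul]
    refine ⟨?_, fun j => (hag j).1⟩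
    rw [Finset.mem_filter]
    exact ⟨Finset.mem_univ _, fun j => hit j j.2⟩
  · intro x hx v
    have hx' := (Finset.mem_filter.1 hx).2
    obtain ⟨l, b, hl, ⟨w, hw1, hw2⟩, hall⟩ := hP x
    have h1 := R21_mono P x P.start hl (R21_walk P x l _ _ hw1 v (hall v))
    obtain ⟨j, hj, h2⟩ := R21_split P x P.start s v r h1
    refine ⟨⟨j, hj⟩, ?_⟩
    have h3 := hx' (Fin.castSucc ⟨j, hj⟩)
    change v ∈ V1_rd P x (κ (Fin.castSucc ⟨j, hj⟩)) s
    rw [← h3]
    exact h2
  · intro x
    simp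

/-- real numbers -/
theorem Q3_real (z l1 l0 k1 k0 kk lk M e t u w : ℝ) (hM : 0 ≤ M) (ht : 0 < t)
    (hz : z * t ≤ M * (l1 + l0) * t + u) (hzk : z = k1 + k0)
    (hd : |l1 - l0| ≤ e * lk) (he : 0 ≤ e) (hlk : lk ≤ kk)
    (hw : (l0 ≤ w) ∨ (l1 ≤ w)) : k1 + k0 ≤ 2 * M * w + M * e * kk + u / t := by
  have h1 : z ≤ M * (l1 + l0) + u / t := by
    have h2 : M * (l1 + l0) * t + u = (M * (l1 + l0) + u / t) * t := by
      field_simp
    rw [h2] at hz
    exact le_of_mul_le_mul_right hz ht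
  have h3 : e * lk ≤ e * kk := mul_le_mul_of_nonneg_left hlk he
  have h4 := abs_le.1 hd
  have h5 : l1 + l0 ≤ 2 * w + e * kk := by
    rcases hw with hw | hw
    · linarith [h4.2]
    · linarith [h4.1]
  have h6 := mul_le_mul_of_nonneg_left h5 hM
  rw [← hzk]
  calc z ≤ M * (l1 + l0) + u / t := h1
    _ ≤ M * (2 * w + e * kk) + u / t := by linarith
    _ = 2 * M * w + M * e * kk + u / t := by ring

open Classical in
/-- one class of computations -/
theorem Q3_class {n r s Q N0 : ℕ} (M : ℕ) (B : Blk n r s) (T : Fin r → Fin 3)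
    (X : Bool → Finset (Pt n)) (hX : Disjoint (X true) (X false)) (e : ℝ) (he : 0 ≤ e)
    (hcov : (B.K ∩ (X true ∪ X false)).card * 2 ^ (n / N0) ≤
      M * Nat.card {x // x ∈ B.K ∩ (X true ∪ X false) ∧ Lg Q B T x} * 2 ^ (n / N0) + 2 ^ n)
    (hcorr : |(((B.K.filter (fun x => Lg Q B T x)) ∩ X true).card : ℝ) -
        ((B.K.filter (fun x => Lg Q B T x)) ∩ X false).card| ≤
      e * (B.K.filter (fun x => Lg Q B T x)).card) (b : Bool) :
    ((B.K ∩ X true).card : ℝ) + (B.K ∩ X false).card ≤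
      2 * M * (B.K ∩ X (!b)).card + M * e * B.K.card + 2 ^ n / 2 ^ (n / N0) := by
  obtain ⟨LK, hLK⟩ : ∃ LK : Finset (Pt n), LK = B.K.filter (fun x => Lg Q B T x) := ⟨_, rfl⟩
  have hLKs : LK ⊆ B.K := by rw [hLK]; exact Finset.filter_subset _ _
  have hdis : ∀ S : Finset (Pt n), (S ∩ (X true ∪ X false)).card =
      (S ∩ X true).card + (S ∩ X false).card := by
    intro S
    rw [Finset.inter_union_distrib_left, Finset.card_union_of_disjoint]
    exact hX.mono Finset.inter_subset_right Finset.inter_subset_right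
  have hcard : Nat.card {x // x ∈ B.K ∩ (X true ∪ X false) ∧ Lg Q B T x} =
      (LK ∩ (X true ∪ X false)).card := by
    rw [Nat.card_eq_fintype_card, Fintype.card_subtype, hLK]
    congr 1
    ext x
    simp only [mem_filter, mem_inter, mem_univ, true_and]
    tauto
  rw [hcard] at hcov
  rw [← hLK] at hcorr
  have hcov' : ((B.K ∩ (X true ∪ X false)).card : ℝ) * 2 ^ (n / N0) ≤
      M * (((LK ∩ X true).card : ℝ) + (LK ∩ X false).card) * 2 ^ (n / N0) + 2 ^ n := by
    rw [hdis LK] at hcov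
    exact_mod_cast hcov
  have hmono : ∀ b' : Bool, ((LK ∩ X b').card : ℝ) ≤ (B.K ∩ X b').card := by
    intro b'
    exact_mod_cast Finset.card_le_card (Finset.inter_subset_inter_right hLKs)
  refine Q3_real _ _ _ _ _ _ _ M e (2 ^ (n / N0)) (2 ^ n) _ (Nat.cast_nonneg M) (by positivity)
    hcov' ?_ hcorr he ?_ ?_
  · rw [hdis B.K]
    push_cast
    ring
  · exact_mod_cast Finset.card_le_card hLKs
  · cases b
    · exact Or.inr (hmono true)
    · exact Or.inl (hmono false)

open Classical in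
/-- Q3 from the cover and the estimate for one class -/
theorem det_corr_of (k : ℕ) (_hk : 1 ≤ k)
    (main_cover : ∃ Q r N : ℕ, 0 < Q ∧ 0 < r ∧ 0 < N ∧ ∀ n ≥ N, ∀ s,
      r * s ≤ (k + 1) * n → ∀ B : Blk n r s, AllRead B → ∀ Z ⊆ B.K, ∃ T : Fin r → Fin 3,
      Z.card * 2 ^ (n / N) ≤
        8 * (k + 1) ^ 2 * Nat.card {x // x ∈ Z ∧ Lg Q B T x} * 2 ^ (n / N) + 2 ^ n)
    (corr_blk : ∀ {n r s G D Q L : ℕ} (_ : 1 ≤ Q) (B : Blk n r s) (_ : AllRead B)
      (T : Fin r → Fin 3) (π : Fin D → Fin n → Fin G) (h : Fin D → Fin n → Fin n → Bool)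
      (_ : ∀ A B' : Finset (Fin n), Disjoint A B' → n ≤ Q * A.card → n ≤ Q * B'.card →
        ∀ s : Finset (Fin D), ∀ j ∈ s, Bal (π j) A B' →
          (ker (coef π h s) A B').card * 2 ^ (min A.card B'.card / 2048) ≤ 2 ^ B'.card)
      (_ : ∀ A B' : Finset (Fin n), n ≤ Q * A.card → n ≤ Q * B'.card →
        Nat.card {j // ¬ Bal (π j) A B'} ≤ L)
      (X : Bool → Finset (Pt n)) (ω : ℝ) (_ : 0 ≤ ω)
      (_ : ∀ R : Finset (Pt n), |((R ∩ X true).card : ℝ) - (R ∩ X false).card| ≤
        ω / 2 ^ D * ∑ u : Finset (Fin D), ((|∑ y ∈ R, chi π h u y| : ℤ) : ℝ)),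
      |(((B.K.filter (fun x => Lg Q B T x)) ∩ X true).card : ℝ) -
          ((B.K.filter (fun x => Lg Q B T x)) ∩ X false).card| ≤
        ω * (2 ^ L / 2 ^ D + 1 / 2 ^ (n / (16384 * Q))) *
          (B.K.filter (fun x => Lg Q B T x)).card) :
    ∃ Q r N : ℕ, 1 ≤ Q ∧ 1 ≤ r ∧ 1 ≤ N ∧ ∀ n ≥ N,
    ∀ {G D L : ℕ}, ∀ (π : Fin D → Fin n → Fin G) (h : Fin D → Fin n → Fin n → Bool),
    (∀ A B' : Finset (Fin n), Disjoint A B' → n ≤ Q * A.card → n ≤ Q * B'.card →
      ∀ s : Finset (Fin D), ∀ j ∈ s, Bal (π j) A B' →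
        (ker (coef π h s) A B').card * 2 ^ (min A.card B'.card / 2048) ≤ 2 ^ B'.card) →
    (∀ A B' : Finset (Fin n), n ≤ Q * A.card → n ≤ Q * B'.card →
      Nat.card {j // ¬ Bal (π j) A B'} ≤ L) →
    ∀ (X : Bool → Finset (Pt n)), Disjoint (X true) (X false) → ∀ ω : ℝ, 0 ≤ ω →
    (∀ R : Finset (Pt n), |((R ∩ X true).card : ℝ) - (R ∩ X false).card| ≤
      ω / 2 ^ D * ∑ u : Finset (Fin D), ((|∑ y ∈ R, chi π h u y| : ℤ) : ℝ)) →
    ∀ P : BP (Fin n) Bool,
      (∀ x, ∃ (l : List (Fin n)) (b : Bool), l.length ≤ k * n ∧ P.Comp x l b ∧ ∀ v, v ∈ l) →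
      ((X true).card : ℝ) + (X false).card ≤
        16 * ((k : ℝ) + 1) ^ 2 *
          (∑ b : Bool, ((univ.filter (fun x => (∃ l, P.Comp x l (!b)) ∧ x ∈ X b)).card : ℝ)) +
        8 * ((k : ℝ) + 1) ^ 2 * ω * (2 ^ L / 2 ^ D + 1 / 2 ^ (n / (16384 * Q))) * 2 ^ n +
        (Fintype.card P.State : ℝ) ^ (r + 1) * (2 ^ n / 2 ^ (n / N)) := by
  obtain ⟨Q, r, N0, hQ, hr, hN0, hcov⟩ := main_cover
  refine ⟨Q, r, max N0 r, hQ, hr, by omega, ?_⟩
  intro n hn G D L π h hker hbal X hX ω hω hXR P hP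
  obtain ⟨s, hs⟩ : ∃ s, s = k * n / r + 1 := ⟨_, rfl⟩
  have hrn : r ≤ n := (le_max_right _ _).trans hn
  have hs1 : k * n ≤ r * s := by
    rw [hs, Nat.mul_add, mul_one]
    have := Nat.div_add_mod (k * n) r
    have h2 := Nat.mod_lt (k * n) hr
    omega
  have hs2 : r * s ≤ (k + 1) * n := by
    rw [hs, Nat.mul_add, mul_one]
    have := Nat.mul_div_le (k * n) r
    have h3 : (k + 1) * n = k * n + n := by ring
    omega
  have hn0 : N0 ≤ n := (le_max_left _ _).trans hn
  have hP' : ∀ x, ∃ (l : List (Fin n)) (b : Bool), l.length ≤ r * s ∧ P.Comp x l b ∧ ∀ v, v ∈ l := by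
    intro x
    obtain ⟨l, b, h1, h2, h3⟩ := hP x
    exact ⟨l, b, h1.trans hs1, h2, h3⟩
  obtain ⟨c, hc⟩ : ∃ c : Pt n → (Fin (r + 1) → P.State),
    c = fun x (j : Fin (r + 1)) => V1_it P x P.start (j * s) := ⟨_, rfl⟩
  have hout : ∀ x : Pt n, ∃ b, P.node (c x (Fin.last r)) = Sum.inr b := by
    intro x
    obtain ⟨l, b, h1, h2, -⟩ := hP' x
    refine ⟨b, ?_⟩
    rw [hc]
    exact V1_comp P x h2 (by simpa using h1)
  have hstart : ∀ x : Pt n, c x 0 = P.start := by
    intro x
    rw [hc]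
    change V1_it P x P.start (((0 : Fin (r + 1)) : ℕ) * s) = _
    rw [Fin.val_zero, zero_mul, V1_it_zero]
  obtain ⟨M, hM⟩ : ∃ M : ℕ, M = 8 * (k + 1) ^ 2 := ⟨_, rfl⟩
  obtain ⟨F, hF⟩ : ∃ F : Bool → Finset (Pt n), F = fun b =>
    univ.filter (fun x => (∃ l, P.Comp x l (!b)) ∧ x ∈ X b) := ⟨_, rfl⟩
  have hMR : 8 * ((k : ℝ) + 1) ^ 2 = (M : ℝ) := by rw [hM]; push_cast; ring
  obtain ⟨e, he⟩ : ∃ e : ℝ, e = ω * (2 ^ L / 2 ^ D + 1 / 2 ^ (n / (16384 * Q))) := ⟨_, rfl⟩
  have he0 : 0 ≤ e := by rw [he]; positivity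
  have key : ∀ κ : Fin (r + 1) → P.State,
      (((X true).filter (fun x => c x = κ)).card : ℝ) +
          ((X false).filter (fun x => c x = κ)).card ≤
        2 * M * ∑ b, (((F b).filter (fun x => c x = κ)).card : ℝ) +
          M * e * ((univ : Finset (Pt n)).filter (fun x => c x = κ)).card +
          2 ^ n / 2 ^ (n / N0) := by
    intro κ
    by_cases hκ : κ 0 = P.start ∧ ∃ b, P.node (κ (Fin.last r)) = Sum.inr b
    · obtain ⟨hκ0, b, hκb⟩ := hκ
      obtain ⟨B, hB, hBK⟩ := Q3_blocks P r s hP' κ hκ0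
      have hK : B.K = (univ : Finset (Pt n)).filter (fun x => c x = κ) := by
        ext x
        rw [hBK, mem_filter]
        constructor
        · intro h1
          refine ⟨mem_univ _, ?_⟩
          rw [hc]; funext i; exact h1 i
        · rintro ⟨-, h1⟩ i
          rw [← h1, hc]
      have hXs : ∀ b', (X b').filter (fun x => c x = κ) = B.K ∩ X b' := by
        intro b'
        rw [hK]
        ext x
        simp only [mem_filter, mem_inter, mem_univ, true_and]
        tauto
      have hFs : B.K ∩ X (!b) = (F (!b)).filter (fun x => c x = κ) := by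
        rw [hK, hF]
        ext x
        simp only [mem_filter, mem_inter, mem_univ, true_and]
        constructor
        · rintro ⟨h1, h2⟩
          refine ⟨⟨?_, h2⟩, h1⟩
          rw [Bool.not_not]
          obtain ⟨l, w, h4, h5⟩ := V1_comp_of P x b (((Fin.last r : Fin (r + 1)) : ℕ) * s) P.start
            (by
              have h6 : c x (Fin.last r) = κ (Fin.last r) := by rw [h1]
              rw [hc] at h6
              rw [← hκb, ← h6])
          exact ⟨l, w, h4, h5⟩
        · rintro ⟨⟨-, h2⟩, h3⟩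
          exact ⟨h3, h2⟩
      obtain ⟨T, hT⟩ := hcov n hn0 s hs2 B hB (B.K ∩ (X true ∪ X false)) Finset.inter_subset_left
      have hcorr := corr_blk (L := L) hQ B hB T π h hker hbal X ω hω hXR
      rw [← hM] at hT
      rw [← he] at hcorr
      have h1 := Q3_class M B T X hX e he0 hT hcorr b
      rw [hXs, hXs, ← hK]
      refine h1.trans ?_
      have h2 : ((B.K ∩ X (!b)).card : ℝ) ≤
          ∑ b, (((F b).filter (fun x => c x = κ)).card : ℝ) := by
        rw [hFs]
        exact Finset.single_le_sum (f := fun b => (((F b).filter (fun x => c x = κ)).card : ℝ))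
          (fun i _ => Nat.cast_nonneg _) (mem_univ (!b))
      have h3 : (0 : ℝ) ≤ 2 * M := by positivity
      have h4 := mul_le_mul_of_nonneg_left h2 h3
      linarith
    · have hempty : ∀ S : Finset (Pt n), S.filter (fun x => c x = κ) = ∅ := by
        intro S
        rw [Finset.filter_eq_empty_iff]
        intro x hx hcx
        apply hκ
        rw [← hcx]
        exact ⟨hstart x, hout x⟩
      simp only [hempty, card_empty, Nat.cast_zero, sum_const_zero, mul_zero, zero_add, add_zero]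
      positivity
  have hfib : ∀ S : Finset (Pt n), (S.card : ℝ) = ∑ κ : Fin (r + 1) → P.State,
      ((S.filter (fun x => c x = κ)).card : ℝ) := by
    intro S
    have := Finset.card_eq_sum_card_fiberwise (f := c) (s := S) (t := univ)
      (fun x _ => Finset.mem_coe.2 (Finset.mem_univ _))
    rw [this]
    push_cast
    rfl
  have hFn : ∀ b, (univ.filter (fun x => (∃ l, P.Comp x l (!b)) ∧ x ∈ X b)) = F b := by
    intro b
    rw [hF]
  have huniv : (((univ : Finset (Pt n)).card : ℕ) : ℝ) = 2 ^ n := by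
    rw [Finset.card_univ, Fintype.card_fun, Fintype.card_bool, Fintype.card_fin]
    push_cast
    rfl
  simp only [hFn]
  have hpow : (2 : ℝ) ^ n / 2 ^ (n / N0) ≤ 2 ^ n / 2 ^ (n / (max N0 r)) := by
    apply div_le_div_of_nonneg_left (by positivity) (by positivity)
    exact pow_le_pow_right₀ (by norm_num) (Nat.div_le_div_left (le_max_left _ _) hN0)
  calc ((X true).card : ℝ) + (X false).card
      = ∑ κ : Fin (r + 1) → P.State, ((((X true).filter (fun x => c x = κ)).card : ℝ) +
          ((X false).filter (fun x => c x = κ)).card) := by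
        rw [hfib (X true), hfib (X false), Finset.sum_add_distrib]
    _ ≤ ∑ κ : Fin (r + 1) → P.State,
          (2 * M * ∑ b, (((F b).filter (fun x => c x = κ)).card : ℝ) +
          M * e * ((univ : Finset (Pt n)).filter (fun x => c x = κ)).card +
          2 ^ n / 2 ^ (n / N0)) := Finset.sum_le_sum (fun κ _ => key κ)
    _ = 2 * M * ∑ b, ((F b).card : ℝ) + M * e * 2 ^ n +
          (Fintype.card P.State : ℝ) ^ (r + 1) * (2 ^ n / 2 ^ (n / N0)) := by
        rw [Finset.sum_add_distrib, Finset.sum_add_distrib, ← Finset.mul_sum, ← Finset.mul_sum,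
          Finset.sum_comm, ← hfib univ, huniv]
        congr 1
        · congr 2
          apply Finset.sum_congr rfl
          intro j _
          rw [hfib (F j)]
        · rw [Finset.sum_const, Finset.card_univ, nsmul_eq_mul, Fintype.card_fun,
            Fintype.card_fin]
          push_cast
          ring
    _ ≤ 2 * M * ∑ b, ((F b).card : ℝ) + M * e * 2 ^ n +
          (Fintype.card P.State : ℝ) ^ (r + 1) * (2 ^ n / 2 ^ (n / (max N0 r))) := by
        have h1 := mul_le_mul_of_nonneg_left hpow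
          (show (0 : ℝ) ≤ (Fintype.card P.State : ℝ) ^ (r + 1) by positivity)
        linarith
    _ = _ := by
        rw [← hMR, he]
        ring

end Pool.Agent.H554R2.Qua
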