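import Mathlib
import Pool.Agent.H554R2.Rnd.Amplify
import Pool.Agent.H554R2.Qua.Defs

set_option autoImplicit false

open Finset

namespace Pool.Agent.H554R2.Qua

open Pool.Agent.H554R2.Sem Pool.Agent.H554R2.Coin Pool.Agent.H554R2.Lin Pool.Agent.H554R2.Rnd

/-- Q6: amplification, pointwise -/
theorem amplify2 {n : ℕ} (k t : ℕ) {Ω : Type} [Fintype Ω] (P : Ω → BP (Fin n) Bool) (M : ℕ)
    (hM : ∀ ω, Fintype.card (P ω).State ≤ M) :
    ∃ U : (Fin t → Ω) → BP (Fin n) Bool,
      (∀ ω, Fintype.card (U ω).State ≤ 4 ^ (t + 1) * (M * (k * n + 2) + n + 3)) ∧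
      (∀ ω x, ∃ (l : List (Fin n)) (b : Bool), l.length ≤ (t * k + 1) * n ∧ (U ω).Comp x l b ∧
        ∀ v, v ∈ l) ∧
      ∀ (x : Pt n) (b : Bool),
        2 * Nat.card Ω ≤ 3 * Nat.card {ω // ∃ l, (P ω).Comp x l b ∧ l.length ≤ k * n} →
        (Nat.card {ω // ¬ ∃ l, (U ω).Comp x l b} : ℝ) ≤
          Real.sqrt (8 / 9) ^ t * (Nat.card Ω : ℝ) ^ t := by
  classical
  choose C hC1 hC2 hC3 using fun ω => clock (P ω) (k * n)
  obtain ⟨R, hR1, hR2⟩ := read_all n
  set Q : (Fin t → Ω) → Fin (t + 1) → BP (Fin n) Bool := fun ws =>
    Fin.snoc (α := fun _ => BP (Fin n) Bool) (fun i => C (ws i)) R with hQ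
  have hQc : ∀ ws (i : Fin t), Q ws i.castSucc = C (ws i) := by
    intro ws i
    simp only [hQ, Fin.snoc_castSucc]
  have hQl : ∀ ws, Q ws (Fin.last t) = R := by
    intro ws
    simp only [hQ, Fin.snoc_last]
  have hQcard : ∀ ws i, Fintype.card (Q ws i).State ≤ M * (k * n + 2) + n + 2 := by
    intro ws i
    induction i using Fin.lastCases with
    | last =>
      rw [hQl, hR1]
      omega
    | cast i =>
      rw [hQc]
      have h1 := hC1 (ws i)
      have h2 := Nat.mul_le_mul_right (k * n + 2) (hM (ws i))
      omega
  set F : (Fin (t + 1) → Bool) → Bool := fun b =>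
    decide (t < 2 * (univ.filter (fun i : Fin t => b i.castSucc = true)).card) with hF
  choose U hU1 hU2 using fun ws => seq_program (Q ws) (hQcard ws) F
  -- the computations of `U`
  have hcomp : ∀ (ws : Fin t → Ω) (x : Pt n) (l : Fin t → List (Fin n)) (b : Fin t → Bool),
      (∀ i, (C (ws i)).Comp x (l i) (b i)) →
      (U ws).Comp x (List.ofFn (Fin.snoc (α := fun _ => List (Fin n)) l (List.finRange n))).flatten
        (decide (t < 2 * (univ.filter (fun i : Fin t => b i = true)).card)) := by
    intro ws x l b h
    have h1 := hU2 ws x (Fin.snoc (α := fun _ => List (Fin n)) l (List.finRange n))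
      (Fin.snoc (α := fun _ => Bool) b false) (by
        intro i
        induction i using Fin.lastCases with
        | last =>
          rw [Fin.snoc_last, Fin.snoc_last, hQl]
          exact hR2 x
        | cast i =>
          rw [Fin.snoc_castSucc, Fin.snoc_castSucc, hQc]
          exact h i)
    have h2 : F (Fin.snoc (α := fun _ => Bool) b false) =
        decide (t < 2 * (univ.filter (fun i : Fin t => b i = true)).card) := by
      simp only [hF, Fin.snoc_castSucc]
    rw [h2] at h1
    exact h1
  refine ⟨U, ?_, ?_, ?_⟩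
  · intro ws
    exact hU1 ws
  · intro ws x
    choose l b hl hb using fun i => hC2 (ws i) x
    refine ⟨_, _, ?_, hcomp ws x l b hb, ?_⟩
    · rw [List.length_flatten, List.map_ofFn, List.sum_ofFn, Fin.sum_univ_castSucc]
      simp only [Function.comp, Fin.snoc_castSucc, Fin.snoc_last, List.length_finRange]
      have h1 : ∑ i : Fin t, (l i).length ≤ t * (k * n) := by
        refine (Finset.sum_le_sum fun i _ => hl i).trans ?_
        simp
      nlinarith
    · intro v
      rw [List.mem_flatten]
      refine ⟨List.finRange n, ?_, List.mem_finRange v⟩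
      rw [List.mem_ofFn]
      exact ⟨Fin.last t, by simp⟩
  · intro x b0 hf
    set W : Set Ω := {ω | ¬ ∃ l, (C ω).Comp x l b0} with hW
    have hW3 : 3 * Nat.card W ≤ Nat.card Ω := by
      have h1 := hf
      have h2 : Nat.card {ω // ∃ l, (P ω).Comp x l b0 ∧ l.length ≤ k * n} ≤
          Nat.card ((Wᶜ : Set Ω)) := by
        apply Nat.card_mono (Set.toFinite _)
        rintro ω ⟨l, hl1, hl2⟩
        rw [Set.mem_compl_iff, hW, Set.mem_ofPred_eq, not_not]
        exact ⟨l, hC3 ω x l _ hl1 hl2⟩
      have h3 : Nat.card W + Nat.card ((Wᶜ : Set Ω)) = Nat.card Ω := by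
        rw [Nat.card_coe_set_eq, Nat.card_coe_set_eq]
        exact Set.ncard_add_ncard_compl W
      omega
    refine le_trans ?_ (majority W hW3 t)
    have h4 : Nat.card {ω // ¬ ∃ l, (U ω).Comp x l b0} ≤
        Nat.card {ω : Fin t → Ω // t ≤ 2 * Nat.card {i // ω i ∈ W}} := by
      apply Nat.card_mono (Set.toFinite _)
      intro ws hws
      by_contra hcon
      apply hws
      have hcon' : 2 * Nat.card {i // ws i ∈ W} < t := not_le.1 hcon
      choose l b hl hb using fun i => hC2 (ws i) x
      have h5 := hcomp ws x l b hb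
      suffices h10 : decide (t < 2 * (univ.filter (fun i : Fin t => b i = true)).card) = b0 by
        rw [h10] at h5
        exact ⟨_, h5⟩
      have h6 : Nat.card {i // ws i ∈ W} = (univ.filter (fun i => ws i ∈ W)).card := by
        rw [Nat.card_eq_fintype_card, Fintype.card_subtype]
      rw [h6] at hcon'
      have h7 : ∀ i, ws i ∉ W → b i = b0 := by
        intro i hi
        rw [hW, Set.mem_ofPred_eq, not_not] at hi
        obtain ⟨l', hl'⟩ := hi
        exact R25_comp_det _ x (hb i) hl'
      cases hfx : b0
      · rw [decide_eq_false_iff_not, not_lt]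
        have h8 : (univ.filter (fun i : Fin t => b i = true)).card ≤
            (univ.filter (fun i => ws i ∈ W)).card := by
          apply Finset.card_le_card
          intro i hi
          rw [Finset.mem_filter] at hi ⊢
          refine ⟨hi.1, ?_⟩
          by_contra hi'
          have := h7 i hi'
          rw [hi.2, hfx] at this
          exact absurd this (by decide)
        omega
      · rw [decide_eq_true_iff]
        have h8 : (univ.filter (fun i : Fin t => ¬ b i = true)).card ≤
            (univ.filter (fun i => ws i ∈ W)).card := by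
          apply Finset.card_le_card
          intro i hi
          rw [Finset.mem_filter] at hi ⊢
          refine ⟨hi.1, ?_⟩
          by_contra hi'
          have := h7 i hi'
          rw [hfx] at this
          exact hi.2 this
        have h9 := Finset.card_filter_add_card_filter_not (s := (univ : Finset (Fin t)))
          (fun i : Fin t => b i = true)
        rw [Finset.card_univ, Fintype.card_fin] at h9
        omega
    exact_mod_cast h4

end Pool.Agent.H554R2.Qua
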