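import Pool.Agent.H554R2.Qua.CorrBlkOf
import Pool.Agent.H554R2.Qua.SumChi
import Pool.Agent.H554R2.Qua.DetCorrOf

/-!
# Q2 and Q3
-/

set_option autoImplicit false

open Finset

namespace Pool.Agent.H554R2.Qua

open Pool.Agent.H554R2.Sem Pool.Agent.H554R2.Coin Pool.Agent.H554R2.Lin Pool.Agent.H554R2.Rnd

open Classical in
/-- Q2: the difference between two sets, on the union of the large classes -/
theorem corr_blk {n r s G D Q L : ℕ} (hQ : 1 ≤ Q) (B : Blk n r s) (hB : AllRead B)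
    (T : Fin r → Fin 3) (π : Fin D → Fin n → Fin G) (h : Fin D → Fin n → Fin n → Bool)
    (hker : ∀ A B' : Finset (Fin n), Disjoint A B' → n ≤ Q * A.card → n ≤ Q * B'.card →
      ∀ s : Finset (Fin D), ∀ j ∈ s, Bal (π j) A B' →
        (ker (coef π h s) A B').card * 2 ^ (min A.card B'.card / 2048) ≤ 2 ^ B'.card)
    (hbal : ∀ A B' : Finset (Fin n), n ≤ Q * A.card → n ≤ Q * B'.card →
      Nat.card {j // ¬ Bal (π j) A B'} ≤ L)
    (X : Bool → Finset (Pt n)) (ω : ℝ) (hω : 0 ≤ ω)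
    (hX : ∀ R : Finset (Pt n), |((R ∩ X true).card : ℝ) - (R ∩ X false).card| ≤
      ω / 2 ^ D * ∑ u : Finset (Fin D), ((|∑ y ∈ R, chi π h u y| : ℤ) : ℝ)) :
    |(((B.K.filter (fun x => Lg Q B T x)) ∩ X true).card : ℝ) -
        ((B.K.filter (fun x => Lg Q B T x)) ∩ X false).card| ≤
      ω * (2 ^ L / 2 ^ D + 1 / 2 ^ (n / (16384 * Q))) *
        (B.K.filter (fun x => Lg Q B T x)).card :=
  Q2_of B hB T π h (fun x hx hL => sum_chi_class hQ B hB T x hx hL π h hker hbal) X ω hω hX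

open Classical in
/-- Q3: deterministic programs make errors -/
theorem det_corr (k : ℕ) (hk : 1 ≤ k) : ∃ Q r N : ℕ, 1 ≤ Q ∧ 1 ≤ r ∧ 1 ≤ N ∧ ∀ n ≥ N,
    ∀ {G D L : ℕ}, ∀ (π : Fin D → Fin n → Fin G) (h : Fin D → Fin n → Fin n → Bool),
    (∀ A B' : Finset (Fin n), Disjoint A B' → n ≤ Q * A.card → n ≤ Q * B'.card →
      ∀ s : Finset (Fin D), ∀ j ∈ s, Bal (π j) A B' →
        (ker (coef π h s) A B').card * 2 ^ (min A.card B'.card / 2048) ≤ 2 ^ B'.card) →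
    (∀ A B' : Finset (Fin n), n ≤ Q * A.card → n ≤ Q * B'.card →
      Nat.card {j // ¬ Bal (π j) A B'} ≤ L) →
    ∀ (X : Bool → Finset (Pt n)), Disjoint (X true) (X false) → ∀ ω : ℝ, 0 ≤ ω →
    (∀ R : Finset (Pt n), |((R ∩ X true).card : ℝ) - (R ∩ X false).card| ≤
      ω / 2 ^ D * ∑ u : Finset (Fin D), ((|∑ y ∈ R, chi π h u y| : ℤ) : ℝ)) →
    ∀ P : BP (Fin n) Bool,
      (∀ x, ∃ (l : List (Fin n)) (b : Bool), l.length ≤ k * n ∧ P.Comp x l b ∧ ∀ v, v ∈ l) →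
      ((X true).card : ℝ) + (X false).card ≤
        16 * ((k : ℝ) + 1) ^ 2 *
          (∑ b : Bool, ((univ.filter (fun x => (∃ l, P.Comp x l (!b)) ∧ x ∈ X b)).card : ℝ)) +
        8 * ((k : ℝ) + 1) ^ 2 * ω * (2 ^ L / 2 ^ D + 1 / 2 ^ (n / (16384 * Q))) * 2 ^ n +
        (Fintype.card P.State : ℝ) ^ (r + 1) * (2 ^ n / 2 ^ (n / N)) :=
  det_corr_of k hk (main_cover (k + 1) (by omega)) corr_blk

end Pool.Agent.H554R2.Qua
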