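import Mathlib
import Pool.Agent.H554R2.Qua.Defs
import Pool.Agent.H554R2.Rnd.FoolBlk

/-!
# Q2: the difference between two sets on the union of the large classes
-/

set_option autoImplicit false

open Finset

namespace Pool.Agent.H554R2.Qua

open Pool.Agent.H554R2.Sem Pool.Agent.H554R2.Coin Pool.Agent.H554R2.Lin Pool.Agent.H554R2.Rnd

open Classical in
theorem Q2_of {n r s G D Q L : ℕ} (B : Blk n r s) (hB : AllRead B)
    (T : Fin r → Fin 3) (π : Fin D → Fin n → Fin G) (h : Fin D → Fin n → Fin n → Bool)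
    (h1 : ∀ x ∈ B.K, Lg Q B T x →
      ∑ u : Finset (Fin D), ((|∑ y ∈ cls B T x, chi π h u y| : ℤ) : ℝ) ≤
        (cls B T x).card * (2 ^ L + 2 ^ D / 2 ^ (n / (16384 * Q))))
    (X : Bool → Finset (Pt n)) (ω : ℝ) (hω : 0 ≤ ω)
    (hX : ∀ R : Finset (Pt n), |((R ∩ X true).card : ℝ) - (R ∩ X false).card| ≤
      ω / 2 ^ D * ∑ u : Finset (Fin D), ((|∑ y ∈ R, chi π h u y| : ℤ) : ℝ)) :
    |(((B.K.filter (fun x => Lg Q B T x)) ∩ X true).card : ℝ) -
        ((B.K.filter (fun x => Lg Q B T x)) ∩ X false).card| ≤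
      ω * (2 ^ L / 2 ^ D + 1 / 2 ^ (n / (16384 * Q))) *
        (B.K.filter (fun x => Lg Q B T x)).card := by
  set e := n / (16384 * Q) with he
  have h2e : (0 : ℝ) < 2 ^ e := by positivity
  have h2D : (0 : ℝ) < 2 ^ D := by positivity
  set CL : Finset (Finset (Pt n)) :=
    (B.K.filter (fun x => Lg Q B T x)).image (fun x => cls B T x) with hCL
  have hone : ∀ R ∈ CL, |((R ∩ X true).card : ℝ) - (R ∩ X false).card| ≤
      ω * (2 ^ L / 2 ^ D + 1 / 2 ^ e) * R.card := by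
    intro R hR
    obtain ⟨x, hx, rfl⟩ := Finset.mem_image.1 hR
    obtain ⟨hxK, hxL⟩ := Finset.mem_filter.1 hx
    refine (hX _).trans ?_
    calc ω / 2 ^ D * ∑ u : Finset (Fin D), ((|∑ y ∈ cls B T x, chi π h u y| : ℤ) : ℝ)
        ≤ ω / 2 ^ D * ((cls B T x).card * (2 ^ L + 2 ^ D / 2 ^ e)) :=
          mul_le_mul_of_nonneg_left (h1 x hxK hxL) (by positivity)
      _ = ω * (2 ^ L / 2 ^ D + 1 / 2 ^ e) * (cls B T x).card := by
          field_simp
  have h3 : (((B.K.filter (fun x => Lg Q B T x)) ∩ X true).card : ℝ) -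
      ((B.K.filter (fun x => Lg Q B T x)) ∩ X false).card =
      ∑ R ∈ CL, (((R ∩ X true).card : ℝ) - (R ∩ X false).card) := by
    rw [R20_part B hB T, R20_part B hB T, Nat.cast_sum, Nat.cast_sum, Finset.sum_sub_distrib]
  have h4 : ((B.K.filter (fun x => Lg Q B T x)).card : ℝ) = ∑ R ∈ CL, (R.card : ℝ) := by
    have h5 := R20_part (Q := Q) B hB T univ
    simp only [Finset.inter_univ] at h5
    rw [h5, Nat.cast_sum]
  rw [h3, h4, Finset.mul_sum]
  exact (Finset.abs_sum_le_sum_abs _ _).trans (Finset.sum_le_sum hone)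

end Pool.Agent.H554R2.Qua
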