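import Pool.Agent.H554R2.Rnd.Final
import Pool.Agent.H554R2.Rnd.Halves
import Pool.Agent.H554R2.Qua.CorrBlkG
import Pool.Agent.H554R2.Qua.Four
import Pool.Agent.H554R2.Qua.Count
import Pool.Agent.H554R2.Qua.Amplify2
import Pool.Agent.H554R2.Qua.Pass
import Pool.Agent.H554R2.Qua.Unitary
import Pool.Agent.H554R2.Qua.QProg

/-!
# Quantum branching programs against randomised programs of length `k n`
-/

set_option autoImplicit false

open Finset

namespace Pool.Agent.H554R2.Qua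

open Pool.Agent.H554R2.Sem Pool.Agent.H554R2.Coin Pool.Agent.H554R2.Lin Pool.Agent.H554R2.Rnd

/-- the lower bound: the final inequality -/
theorem qua_contra (S V C e w a1 a2 a3 M4 : ℝ) (hS : 0 < S) (hV : 3 / 4 * (M4 * V) ≤ S)
    (he : 24 * C * e ≤ 1 / 8) (hw : w ≤ 16 * C * (e * S) + a1 + a2 + a3) (hSw : S ≤ w)
    (h1 : a1 ≤ M4 * V / 32) (h2 : a2 ≤ M4 * V / 32) (h3 : a3 ≤ M4 * V / 32) : False := by
  have h4 : 16 * C * (e * S) = (24 * C * e) * S * (2 / 3) := by ring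
  have h5 : (24 * C * e) * S ≤ 1 / 8 * S := mul_le_mul_of_nonneg_right he hS.le
  linarith

theorem qua_final (k : ℕ) : ∃ D : ℕ, 0 < D ∧ ∀ n ≥ D, ∃ X : Bool → Finset (Pt n),
    (∃ Q : QBP n, Fintype.card Q.State ≤ D * n ∧ Q.len ≤ 2 * n + 2 ∧
      (∀ x ∈ X true, Q.prob x = 1) ∧ ∀ x ∈ X false, Q.prob x = 0) ∧
    ∀ (Ω : Type) [Fintype Ω] [Nonempty Ω] (P : Ω → BP (Fin n) Bool),
      (∀ ω, Fintype.card (P ω).State < 2 ^ (n / D)) →
      ∃ b, ∃ x ∈ X b, 3 * Nat.card {ω // ∃ l, (P ω).Comp x l b ∧ l.length ≤ k * n} <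
        2 * Nat.card Ω := by
  classical
  obtain ⟨t, ht1, ht2⟩ := exists_trials k
  obtain ⟨K, hK⟩ : ∃ K : ℕ, K = t * k + 1 := ⟨_, rfl⟩
  have hK1 : 1 ≤ K := by omega
  obtain ⟨Q, r, N, hQ, hr, hN, hdet⟩ := det_corr K hK1
  obtain ⟨L, W0, hW0, hgroups⟩ := exists_groups (Q + 2) (by omega)
  obtain ⟨M, hM⟩ : ∃ M : ℕ, M = 8 * (K + 1) ^ 2 := ⟨_, rfl⟩
  obtain ⟨p, hp⟩ : ∃ p : ℕ, p = L + M + 5 := ⟨_, rfl⟩
  obtain ⟨W1, hcoefs⟩ := exists_coefs (Q + 2) (4 ^ p) (by omega)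
  obtain ⟨W, hW⟩ : ∃ W : ℕ, W = W0 + W1 := ⟨_, rfl⟩
  obtain ⟨N1, hN1⟩ := hgroups W (by omega) (4 ^ p)
  obtain ⟨N2, hN2⟩ := hcoefs W (by omega)
  obtain ⟨c1, hc1⟩ : ∃ c1 : ℕ, c1 = 2 * N * (r + 1) := ⟨_, rfl⟩
  have hc1' : 1 ≤ c1 := by rw [hc1]; exact Nat.one_le_iff_ne_zero.2 (by positivity)
  obtain ⟨N3, hN3⟩ := exp_large (2 * c1) (by omega) (4 ^ (t + 1) * (k + 4))
  obtain ⟨N4, hN4⟩ := exp_large (2 * N) (by omega) (32 * 2 ^ (4 ^ p))
  obtain ⟨N5, hN5⟩ := exp_large 8192 (by norm_num) (2 ^ (4 ^ p + 2))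
  obtain ⟨N6, hN6⟩ := exp_large (16384 * Q) (by omega) (32 * M * 2 ^ p * 2 ^ (4 ^ p))
  obtain ⟨D, hD⟩ : ∃ D : ℕ, D = 4 ^ p * (4 * 4 ^ p * 9 ^ W) + N + N1 + N2 + N3 + N4 + N5 + N6 +
    2 * c1 + (Q + 2) * 4 := ⟨_, rfl⟩
  refine ⟨D, by omega, fun n hn => ?_⟩
  have hn0 : 1 ≤ n := by omega
  obtain ⟨π, hπ1, hπ2, hπ3⟩ := hN1 n (by omega)
  obtain ⟨h, hh⟩ := hN2 n (by omega) π
  have hcardY : Fintype.card (Y p) = 4 ^ p := by
    rw [Fintype.card_prod, Fintype.card_fun, Fintype.card_bool, Fintype.card_fin, ← pow_add,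
      ← two_mul, pow_mul]
    norm_num
  obtain ⟨E⟩ : Nonempty (Y p ≃ Fin (4 ^ p)) := ⟨Fintype.equivFinOfCardEq hcardY⟩
  refine ⟨Prom E π h, ?_, ?_⟩
  · -- the quantum program
    obtain ⟨X, hX⟩ : ∃ X : ℕ, X = 4 * 4 ^ p * 9 ^ W * n := ⟨_, rfl⟩
    obtain ⟨w, hw⟩ : ∃ w : ℕ, w = Nat.log 2 X := ⟨_, rfl⟩
    have hX4 : 4 ≤ X := by
      rw [hX]
      have h1 : 1 ≤ 4 ^ p * 9 ^ W * n := Nat.one_le_iff_ne_zero.2 (by positivity)
      calc 4 ≤ 4 * (4 ^ p * 9 ^ W * n) := by omega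
        _ = _ := by ring
    have hw0 : 0 < w := by
      rw [hw]
      exact Nat.log_pos (by norm_num) (by omega)
    have hwX : 2 ^ w ≤ X := by
      rw [hw]
      exact Nat.pow_log_le_self 2 (by omega)
    have hgr : ∀ j g, (univ.filter (fun v => π j v = g)).card ≤ w := by
      intro j g
      rw [hw]
      apply Nat.le_log_of_pow_le (by norm_num)
      refine le_trans ?_ (hX ▸ hπ1 j)
      exact Finset.single_le_sum (f := fun g => 2 ^ (univ.filter (fun v => π j v = g)).card)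
        (fun _ _ => Nat.zero_le _) (mem_univ g)
    choose Ls hLs using fun y : Y p => pass hn0 hw0 (π (E y)) (h (E y)) (hgr (E y))
    obtain ⟨Qp, hQ1, hQ2, hQ3⟩ := qprog (T := 2 * n) Ls (fun t x s₁ s₂ => qamp_wf Ls (2 * n) t x s₁ s₂)
    refine ⟨Qp, ?_, by rw [hQ2], ?_, ?_⟩
    · rw [hQ1]
      calc 4 ^ p * 2 ^ w ≤ 4 ^ p * X := Nat.mul_le_mul_left _ hwX
        _ = (4 ^ p * (4 * 4 ^ p * 9 ^ W)) * n := by rw [hX]; ring
        _ ≤ D * n := Nat.mul_le_mul_right _ (by omega)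
    · intro x hx
      obtain ⟨a, ha1, ha2⟩ := (mem_filter.1 hx).2
      rw [hQ3 x a (fun y => by rw [hLs y x, ha1 y]), if_pos ha2]
    · intro x hx
      obtain ⟨a, ha1, ha2⟩ := (mem_filter.1 hx).2
      rw [hQ3 x a (fun y => by rw [hLs y x, ha1 y]), if_neg (by rw [ha2]; simp)]
  -- the lower bound
  intro Ω _ _ P hP
  by_contra hcon
  push Not at hcon
  have hker : ∀ A B' : Finset (Fin n), Disjoint A B' → n ≤ (Q + 2) * A.card →
      n ≤ (Q + 2) * B'.card → ∀ s : Finset (Fin (4 ^ p)), ∀ j ∈ s, Bal (π j) A B' →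
        (ker (coef π h s) A B').card * 2 ^ (min A.card B'.card / 2048) ≤ 2 ^ B'.card := hh
  have hQ2 : ∀ a : ℕ, n ≤ Q * a → n ≤ (Q + 2) * a := fun a ha => ha.trans (by nlinarith)
  obtain ⟨hA0c, hB0c, hdisj⟩ := halves n hn0
  set A0 : Finset (Fin n) := univ.filter (fun v : Fin n => 2 * v.val < n) with hA0
  set B0 : Finset (Fin n) := univ.filter (fun v : Fin n => ¬ 2 * v.val < n) with hB0
  have hnA : n ≤ (Q + 2) * A0.card := hA0c.trans (Nat.mul_le_mul_right _ (by omega))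
  have hnB : n ≤ (Q + 2) * B0.card := by
    have hn12 : 12 ≤ n := by omega
    have hB1 : 1 ≤ B0.card := by omega
    nlinarith
  have hsmall : ∀ s : Finset (Fin (4 ^ p)), s.Nonempty →
      (|∑ x : Pt n, chi π h s x| : ℤ) ≤ (2 : ℝ) ^ n / 2 ^ (n / 8192) := by
    intro s hs
    obtain ⟨j, hj⟩ := hs
    exact all_small π h s (hker A0 B0 hdisj hnA hnB s j hj (hπ3 j))
  obtain ⟨hcount, hXdisj⟩ := count_prom E π h ((2 : ℝ) ^ n / 2 ^ (n / 8192)) (by positivity) hsmall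
  have h2n : (0 : ℝ) < 2 ^ n := by positivity
  have h2m : (0 : ℝ) < 2 ^ (4 ^ p) := by positivity
  obtain ⟨V, hV⟩ : ∃ V : ℝ, V = 2 ^ n / 2 ^ (4 ^ p) := ⟨_, rfl⟩
  have hV0 : 0 < V := by rw [hV]; positivity
  have hρ : (2 : ℝ) ^ n / 2 ^ (n / 8192) ≤ V / 4 := by
    have h1 : 2 ^ (4 ^ p + 2) * (n + 1) ≤ 2 ^ (n / 8192) := hN5 n (by omega)
    have h2 : 2 ^ (4 ^ p + 2) ≤ 2 ^ (n / 8192) := (Nat.le_mul_of_pos_right _ (by omega)).trans h1
    have h3 : (2 : ℝ) ^ (4 ^ p) * 4 ≤ 2 ^ (n / 8192) := by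
      have : ((2 ^ (4 ^ p + 2) : ℕ) : ℝ) ≤ ((2 ^ (n / 8192) : ℕ) : ℝ) := by exact_mod_cast h2
      push_cast at this
      rw [pow_add] at this
      linarith
    have h4 : (0 : ℝ) < 2 ^ (n / 8192) := by positivity
    rw [hV, div_div, div_le_div_iff₀ h4 (by positivity)]
    exact mul_le_mul_of_nonneg_left h3 h2n.le
  obtain ⟨S, hS⟩ : ∃ S : ℝ, S = ((Prom E π h true).card : ℝ) + (Prom E π h false).card := ⟨_, rfl⟩
  have h4p : (0 : ℝ) < 4 ^ p := by positivity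
  have hSV : 3 / 4 * (4 ^ p * V) ≤ S := by
    rw [← hS, ← hV] at hcount
    have : (4 : ℝ) ^ p * (V - V / 4) ≤ 4 ^ p * (V - 2 ^ n / 2 ^ (n / 8192)) :=
      mul_le_mul_of_nonneg_left (by linarith) h4p.le
    linarith
  have hS0 : 0 < S := lt_of_lt_of_le (by positivity) hSV
  -- amplification
  obtain ⟨U, hU1, hU2, hU3⟩ := amplify2 k t P (2 ^ (n / D)) (fun ω => (hP ω).le)
  set e : ℝ := Real.sqrt (8 / 9) ^ t with he
  have he0 : 0 ≤ e := by positivity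
  set E' : (Fin t → Ω) → Pt n → Prop := fun ω x =>
    (x ∈ Prom E π h true ∧ ¬ ∃ l, (U ω).Comp x l true) ∨
      (x ∈ Prom E π h false ∧ ¬ ∃ l, (U ω).Comp x l false) with hE'
  have hΩ : 0 < Fintype.card (Fin t → Ω) := Fintype.card_pos
  have hEb : ∀ b, ∀ x ∈ Prom E π h b,
      ((univ.filter (fun ω => ¬ ∃ l, (U ω).Comp x l b)).card : ℝ) ≤
        e * Fintype.card (Fin t → Ω) := by
    intro b x hx
    have h1 := hU3 x b (hcon b x hx)
    rw [Nat.card_eq_fintype_card, Fintype.card_subtype, Nat.card_eq_fintype_card] at h1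
    rw [Fintype.card_fun, Fintype.card_fin]
    push_cast
    exact h1
  have hEc : ∀ x, ((univ.filter (fun ω => E' ω x)).card : ℝ) ≤ e * Fintype.card (Fin t → Ω) := by
    intro x
    by_cases hx1 : x ∈ Prom E π h true
    · have hx0 : x ∉ Prom E π h false := Finset.disjoint_left.1 hXdisj hx1
      have : univ.filter (fun ω => E' ω x) = univ.filter (fun ω => ¬ ∃ l, (U ω).Comp x l true) := by
        apply Finset.filter_congr
        intro ω _
        simp only [hE', hx1, hx0, true_and, false_and, or_false]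
      rw [this]
      exact hEb true x hx1
    · by_cases hx0 : x ∈ Prom E π h false
      · have : univ.filter (fun ω => E' ω x) =
            univ.filter (fun ω => ¬ ∃ l, (U ω).Comp x l false) := by
          apply Finset.filter_congr
          intro ω _
          simp only [hE', hx1, hx0, true_and, false_and, false_or]
        rw [this]
        exact hEb false x hx0
      · have : univ.filter (fun ω => E' ω x) = ∅ := by
          rw [Finset.filter_eq_empty_iff]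
          intro ω _
          simp only [hE', hx1, hx0, false_and, or_false, not_false_eq_true]
        rw [this, Finset.card_empty, Nat.cast_zero]
        positivity
  obtain ⟨ω, hω⟩ := average (Prom E π h true ∪ Prom E π h false) (fun _ => (1 : ℝ))
    (fun _ => zero_le_one) E' e hΩ hEc
  have hcardU : ((Prom E π h true ∪ Prom E π h false).card : ℝ) = S := by
    rw [Finset.card_union_of_disjoint hXdisj, hS]
    push_cast
    rfl
  rw [Finset.sum_const, Finset.sum_const, nsmul_eq_mul, nsmul_eq_mul, mul_one, mul_one,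
    hcardU] at hω
  -- the errors
  have herr : ∑ b : Bool, ((univ.filter (fun x => (∃ l, (U ω).Comp x l (!b)) ∧
      x ∈ Prom E π h b)).card : ℝ) ≤ e * S := by
    refine le_trans ?_ hω
    rw [Fintype.sum_bool]
    have h1 : Disjoint (univ.filter (fun x => (∃ l, (U ω).Comp x l (!true)) ∧ x ∈ Prom E π h true))
        (univ.filter (fun x => (∃ l, (U ω).Comp x l (!false)) ∧ x ∈ Prom E π h false)) := by
      rw [Finset.disjoint_left]
      intro x hx hx'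
      exact Finset.disjoint_left.1 hXdisj (mem_filter.1 hx).2.2 (mem_filter.1 hx').2.2
    have h2 : (univ.filter (fun x => (∃ l, (U ω).Comp x l (!true)) ∧ x ∈ Prom E π h true)) ∪
        (univ.filter (fun x => (∃ l, (U ω).Comp x l (!false)) ∧ x ∈ Prom E π h false)) ⊆
        (Prom E π h true ∪ Prom E π h false).filter (fun x => E' ω x) := by
      intro x hx
      rcases Finset.mem_union.1 hx with hx | hx
      · obtain ⟨-, ⟨l, hl⟩, hx2⟩ := mem_filter.1 hx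
        refine mem_filter.2 ⟨mem_union_left _ hx2, Or.inl ⟨hx2, ?_⟩⟩
        rintro ⟨l', hl'⟩
        have := (comp_unique (U ω) x hl hl').2
        simp at this
      · obtain ⟨-, ⟨l, hl⟩, hx2⟩ := mem_filter.1 hx
        refine mem_filter.2 ⟨mem_union_right _ hx2, Or.inr ⟨hx2, ?_⟩⟩
        rintro ⟨l', hl'⟩
        have := (comp_unique (U ω) x hl hl').2
        simp at this
    have h3 := Finset.card_le_card h2
    rw [Finset.card_union_of_disjoint h1] at h3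
    exact_mod_cast h3
  -- the deterministic bound
  have hd := hdet n (by omega) (G := n / W) (D := 4 ^ p) (L := L) π h
    (fun A B' h1 h2 h3 => hker A B' h1 (hQ2 _ h2) (hQ2 _ h3))
    (fun A B' h2 h3 => hπ2 A B' (hQ2 _ h2) (hQ2 _ h3)) (Prom E π h) hXdisj (2 ^ p) (by positivity)
    (fun R => four_ip E π h R) (U ω) (fun x => by
      rw [hK]; exact hU2 ω x)
  rw [← hS] at hd
  -- the size of the program
  have hsize : Fintype.card (U ω).State ≤ 2 ^ (n / D) * 2 ^ (n / (2 * c1)) := by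
    refine (hU1 ω).trans ?_
    have h1 : 4 ^ (t + 1) * (k + 4) * (n + 1) ≤ 2 ^ (n / (2 * c1)) := hN3 n (by omega)
    have h2 : 1 ≤ 2 ^ (n / D) := Nat.one_le_two_pow
    calc 4 ^ (t + 1) * (2 ^ (n / D) * (k * n + 2) + n + 3) ≤
        4 ^ (t + 1) * (2 ^ (n / D) * ((k + 4) * (n + 1))) := by
          apply Nat.mul_le_mul_left
          have h3 : (k + 4) * (n + 1) = k * n + k + 4 * n + 4 := by ring
          rw [h3]
          have h4 : 2 ^ (n / D) * (k * n + k + 4 * n + 4) =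
            2 ^ (n / D) * (k * n + 2) + 2 ^ (n / D) * (k + 4 * n + 2) := by ring
          rw [h4]
          have h5 : k + 4 * n + 2 ≤ 2 ^ (n / D) * (k + 4 * n + 2) := Nat.le_mul_of_pos_left _ h2
          omega
      _ = 2 ^ (n / D) * (4 ^ (t + 1) * (k + 4) * (n + 1)) := by ring
      _ ≤ 2 ^ (n / D) * 2 ^ (n / (2 * c1)) := Nat.mul_le_mul_left _ h1
  have hsize2 : Fintype.card (U ω).State ^ (r + 1) ≤ 2 ^ (n / (2 * N)) := by
    refine (Nat.pow_le_pow_left hsize _).trans ?_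
    rw [← pow_add, ← pow_mul]
    apply Nat.pow_le_pow_right (by norm_num)
    rw [Nat.le_div_iff_mul_le (by omega)]
    have h1 : 2 * c1 * (n / (2 * c1)) ≤ n := Nat.mul_div_le n (2 * c1)
    have h2 : 2 * c1 * (n / D) ≤ n :=
      (Nat.mul_le_mul_right _ (by omega)).trans (Nat.mul_div_le n D)
    have h3 : 2 * ((n / D + n / (2 * c1)) * (r + 1) * (2 * N)) =
        2 * c1 * (n / D) + 2 * c1 * (n / (2 * c1)) := by rw [hc1]; ring
    omega
  have ha3 : (Fintype.card (U ω).State : ℝ) ^ (r + 1) * ((2 : ℝ) ^ n / 2 ^ (n / N)) ≤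
      4 ^ p * V / 32 := by
    have h1 : 32 * 2 ^ (4 ^ p) * (n + 1) ≤ 2 ^ (n / (2 * N)) := hN4 n (by omega)
    have h2 : 32 * 2 ^ (4 ^ p) ≤ 2 ^ (n / (2 * N)) := (Nat.le_mul_of_pos_right _ (by omega)).trans h1
    have h3 : 2 ^ (n / (2 * N)) * 2 ^ (n / (2 * N)) ≤ 2 ^ (n / N) := by
      rw [← pow_add]
      apply Nat.pow_le_pow_right (by norm_num)
      rw [Nat.le_div_iff_mul_le (by omega)]
      have := Nat.mul_div_le n (2 * N)
      nlinarith
    have h4 : Fintype.card (U ω).State ^ (r + 1) * (32 * 2 ^ (4 ^ p)) ≤ 2 ^ (n / N) :=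
      (Nat.mul_le_mul hsize2 h2).trans h3
    have h5 : ((Fintype.card (U ω).State : ℝ) ^ (r + 1)) * (32 * (2 : ℝ) ^ (4 ^ p)) ≤
        2 ^ (n / N) := by
      exact_mod_cast h4
    have h7 : (0 : ℝ) < 2 ^ (n / N) := by positivity
    have h8 : (Fintype.card (U ω).State : ℝ) ^ (r + 1) * ((2 : ℝ) ^ n / 2 ^ (n / N)) ≤ V / 32 := by
      rw [hV, div_div, mul_div_assoc', div_le_div_iff₀ h7 (by positivity)]
      calc (Fintype.card (U ω).State : ℝ) ^ (r + 1) * 2 ^ n * (2 ^ (4 ^ p) * 32) =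
          2 ^ n * (((Fintype.card (U ω).State : ℝ) ^ (r + 1)) * (32 * (2 : ℝ) ^ (4 ^ p))) := by ring
        _ ≤ 2 ^ n * 2 ^ (n / N) := mul_le_mul_of_nonneg_left h5 h2n.le
    have h9 : (1 : ℝ) ≤ 4 ^ p := one_le_pow₀ (by norm_num)
    have h10 : V ≤ 4 ^ p * V := le_mul_of_one_le_left hV0.le h9
    linarith
  have hMR : 8 * ((K : ℝ) + 1) ^ 2 = M := by rw [hM]; push_cast; ring
  have hM1 : (1 : ℝ) ≤ M := by
    rw [← hMR]
    have : (0 : ℝ) ≤ K := Nat.cast_nonneg _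
    nlinarith
  have hML : (M : ℝ) * 2 ^ L * 32 ≤ 2 ^ p := by
    have h1 : M ≤ 2 ^ M := Nat.lt_two_pow_self.le
    have h2 : M * 2 ^ L * 32 ≤ 2 ^ p := by
      rw [hp, pow_add, pow_add]
      calc M * 2 ^ L * 32 ≤ 2 ^ M * 2 ^ L * 32 :=
            Nat.mul_le_mul_right _ (Nat.mul_le_mul_right _ h1)
        _ = 2 ^ L * 2 ^ M * 2 ^ 5 := by ring
    exact_mod_cast h2
  have hpp : (2 : ℝ) ^ p * 2 ^ p = 4 ^ p := by
    rw [← mul_pow]; norm_num
  have ha1 : (M : ℝ) * 2 ^ p * (2 ^ L / 2 ^ (4 ^ p)) * 2 ^ n ≤ 4 ^ p * V / 32 := by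
    have h1 : (M : ℝ) * 2 ^ p * (2 ^ L / 2 ^ (4 ^ p)) * 2 ^ n = (M * 2 ^ L * 32) * (2 ^ p * V) / 32 := by
      rw [hV]; ring
    rw [h1, ← hpp]
    have h2 : ((M : ℝ) * 2 ^ L * 32) * (2 ^ p * V) ≤ 2 ^ p * (2 ^ p * V) :=
      mul_le_mul_of_nonneg_right hML (by positivity)
    linarith
  have ha2 : (M : ℝ) * 2 ^ p * (1 / 2 ^ (n / (16384 * Q))) * 2 ^ n ≤ 4 ^ p * V / 32 := by
    have h1 : 32 * M * 2 ^ p * 2 ^ (4 ^ p) * (n + 1) ≤ 2 ^ (n / (16384 * Q)) := hN6 n (by omega)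
    have h2 : 32 * M * 2 ^ p * 2 ^ (4 ^ p) ≤ 2 ^ (n / (16384 * Q)) :=
      (Nat.le_mul_of_pos_right _ (by omega)).trans h1
    have h3 : (32 : ℝ) * M * 2 ^ p * 2 ^ (4 ^ p) ≤ 2 ^ (n / (16384 * Q)) := by exact_mod_cast h2
    have h7 : (0 : ℝ) < 2 ^ (n / (16384 * Q)) := by positivity
    have h8 : (M : ℝ) * 2 ^ p * (1 / 2 ^ (n / (16384 * Q))) * 2 ^ n ≤ V / 32 := by
      have e1 : (M : ℝ) * 2 ^ p * (1 / 2 ^ (n / (16384 * Q))) * 2 ^ n =
        M * 2 ^ p * 2 ^ n / 2 ^ (n / (16384 * Q)) := by ring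
      rw [e1, hV, div_div, div_le_div_iff₀ h7 (by positivity)]
      calc (M : ℝ) * 2 ^ p * 2 ^ n * (2 ^ (4 ^ p) * 32) =
          2 ^ n * (32 * M * 2 ^ p * 2 ^ (4 ^ p)) := by ring
        _ ≤ 2 ^ n * 2 ^ (n / (16384 * Q)) := mul_le_mul_of_nonneg_left h3 h2n.le
    have h9 : (1 : ℝ) ≤ 4 ^ p := one_le_pow₀ (by norm_num)
    have h10 : V ≤ 4 ^ p * V := le_mul_of_one_le_left hV0.le h9
    linarith
  have hKR : ((K : ℝ) + 1) ^ 2 = ((t : ℝ) * k + 2) ^ 2 := by rw [hK]; push_cast; ring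
  have hC0 : (0 : ℝ) ≤ 16 * ((K : ℝ) + 1) ^ 2 := by positivity
  refine qua_contra S V (((K : ℝ) + 1) ^ 2) e S
    ((M : ℝ) * 2 ^ p * (2 ^ L / 2 ^ (4 ^ p)) * 2 ^ n)
    ((M : ℝ) * 2 ^ p * (1 / 2 ^ (n / (16384 * Q))) * 2 ^ n)
    ((Fintype.card (U ω).State : ℝ) ^ (r + 1) * ((2 : ℝ) ^ n / 2 ^ (n / N))) (4 ^ p)
    hS0 hSV (by rw [hKR]; exact ht1) ?_ le_rfl ha1 ha2 ha3
  have h1 := mul_le_mul_of_nonneg_left herr hC0
  have h2 : 8 * ((K : ℝ) + 1) ^ 2 * 2 ^ p * (2 ^ L / 2 ^ (4 ^ p) + 1 / 2 ^ (n / (16384 * Q))) * 2 ^ n =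
      (M : ℝ) * 2 ^ p * (2 ^ L / 2 ^ (4 ^ p)) * 2 ^ n +
        (M : ℝ) * 2 ^ p * (1 / 2 ^ (n / (16384 * Q))) * 2 ^ n := by
    rw [hMR]; ring
  linarith

end Pool.Agent.H554R2.Qua
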